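import Pool.Agent.H4.TailRatioEx

/-!
# `MP_966169_pr`, question Q2 (mean version): full answer

The inequality `R(z) ≥ 2 z / E X` for some `z > 0` fails for the law with
`P(X > t) = exp(-(t + t^2/10))`, while the weaker inequality with the constant `1/12` in place
of `2` holds for every law of the class with finite mean.
-/

open MeasureTheory Set

namespace Pool.Agent.Results.MP_966169_pr.MeanVersion

open Pool.Agent.H4.TailRatio

/-- Q2 of `MP_966169_pr`: the inequality with constant `2` fails for some law of the class
with finite mean at every `z > 0`, and for every law of the class with finite mean the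
inequality with constant `1/12` holds at some `z > 0`. -/
theorem result :
    (∃ μ : Measure ℝ, IsLaw μ ∧ Integrable (fun x : ℝ => x) μ ∧
      ∀ z : ℝ, 0 < z → R μ z < 2 * z / ∫ x, x ∂μ) ∧
    (∀ μ : Measure ℝ, IsLaw μ → Integrable (fun x : ℝ => x) μ →
      ∃ z : ℝ, 0 < z ∧ (1 / 12 : ℝ) * z / (∫ x, x ∂μ) ≤ R μ z) :=
  ⟨⟨law, law_isLaw, integrable_id_law, fun _ hz => mean_fails hz⟩,
    fun _ h hint => exists_const_mean h hint⟩

end Pool.Agent.Results.MP_966169_pr.MeanVersion
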