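import Pool.Agent.H4.TailRatioEx

/-!
# `MP_966169_pr`, question Q1 (median version): full answer

The inequality `R(z) ≥ (2 log 2) z / med(X)` for some `z > 0` fails for the law with
`P(X > t) = exp(-(t + t^2/10))`, while the weaker inequality with the constant `1/6` in place
of `2 log 2` holds for every law of the class.
-/

open MeasureTheory Set

namespace Pool.Agent.Results.MP_966169_pr.MedianVersion

open Pool.Agent.H4.TailRatio

/-- Sanity check: for every law of the class, `med μ` is the smallest `m ≥ 0` with
`P(X ≤ m) = 1/2` (in particular such an `m` exists), and it is positive. -/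
theorem med_isLeast {μ : Measure ℝ} (h : IsLaw μ) :
    IsLeast {m : ℝ | 0 ≤ m ∧ μ.real (Iic m) = 1 / 2} (med μ) ∧ 0 < med μ :=
  ⟨⟨med_mem h, fun _ hx => csInf_le ⟨0, fun _ hy => hy.1⟩ hx⟩, med_pos h⟩

/-- Q1 of `MP_966169_pr`: the inequality with constant `2 log 2` fails for some law of the
class at every `z > 0`, and for every law of the class the inequality with constant `1/6`
holds at some `z > 0`. -/
theorem result :
    (∃ μ : Measure ℝ, IsLaw μ ∧ ∀ z : ℝ, 0 < z → R μ z < 2 * Real.log 2 * z / med μ) ∧
    (∀ μ : Measure ℝ, IsLaw μ → ∃ z : ℝ, 0 < z ∧ (1 / 6 : ℝ) * z / med μ ≤ R μ z) :=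
  ⟨⟨law, law_isLaw, fun _ hz => median_fails hz⟩, fun _ h => exists_const_med h⟩

end Pool.Agent.Results.MP_966169_pr.MedianVersion
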